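import Pool.Agent.GEN.StmtsV
import Pool.Agent.Helper88_GEN.COR

/-!
# Squad GEN, row COV: the strong generic statement, core argument

Variant of `Helper88_GEN/COR.lean`.
-/

set_option autoImplicit false
set_option linter.unusedVariables false
set_option linter.unusedSectionVars false

namespace Pool.Agent.GEN.H19

open MvPolynomial Pool.Agent.Helper6_Mono Pool.Agent.Helper30_Simp Pool.Agent.Helper30_Simp2
open Pool.Agent.GEN.H88

section pw

variable {E V : Type} [CommRing E] [AddCommGroup V] [Module E V]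

theorem pow_mem (N : Submodule E V) (T : Module.End E V) (hT : ∀ F ∈ N, T F ∈ N) (n : ℕ) :
    ∀ F ∈ N, (T ^ n) F ∈ N := by
  induction n with
  | zero =>
    intro F hF
    simpa using hF
  | succ n ih =>
    intro F hF
    rw [pow_succ']
    exact hT _ (ih F hF)

theorem pow_comm (p T : Module.End E V) (hc : ∀ F, T (p F) = p (T F)) (n : ℕ) (F : V) :
    (T ^ n) (p F) = p ((T ^ n) F) := by
  induction n generalizing F with
  | zero => rfl
  | succ n ih =>
    rw [pow_succ']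
    change T ((T ^ n) (p F)) = p (T ((T ^ n) F))
    rw [ih, hc]

/-- powers of a congruence -/
theorem pow_rel (N : Submodule E V) (p T : Module.End E V) (ν : E) (ψ : V)
    (hp : ∀ F ∈ N, p F ∈ N) (hT : ∀ F ∈ N, T F ∈ N) (hc : ∀ F, T (p F) = p (T F))
    (h : p ψ - ν • T ψ ∈ N) (j : ℕ) : (p ^ j) ψ - ν ^ j • (T ^ j) ψ ∈ N := by
  induction j with
  | zero => simp
  | succ j ih =>
    have h1 : (p ^ (j + 1)) ψ - ν ^ (j + 1) • (T ^ (j + 1)) ψ
        = p ((p ^ j) ψ - ν ^ j • (T ^ j) ψ) + ν ^ j • (T ^ j) (p ψ - ν • T ψ) := by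
      have e1 : (p ^ (j + 1)) ψ = p ((p ^ j) ψ) := by
        rw [pow_succ']; rfl
      have e2 : (T ^ (j + 1)) ψ = (T ^ j) (T ψ) := by
        rw [pow_succ]; rfl
      rw [e1, e2, map_sub, map_sub, map_smul, map_smul, pow_comm p T hc, smul_sub, smul_smul,
        ← pow_succ]
      abel
    rw [h1]
    exact N.add_mem (hp _ ih) (N.smul_mem _ (pow_mem N T hT j _ h))

end pw

section poly

variable {E : Type} [CommRing E] [Algebra ℂ E]

theorem coeff_P (d : ℕ) (a : ℕ → ℂ) (n : ℕ) (hn : n ≤ d) :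
    (∑ e ∈ Finset.range (d + 1), Polynomial.C (algebraMap ℂ E (a e)) * Polynomial.X ^ e).coeff n
      = algebraMap ℂ E (a n) := by
  rw [Polynomial.finsetSum_coeff]
  rw [Finset.sum_eq_single n]
  · rw [Polynomial.coeff_C_mul_X_pow, if_pos rfl]
  · intro e _ he
    rw [Polynomial.coeff_C_mul_X_pow, if_neg (fun h => he h.symm)]
  · intro h
    exact absurd (Finset.mem_range.2 (Nat.lt_succ_of_le hn)) h

/-- the lowest term -/
theorem exists_U (d : ℕ) (a : ℕ → ℂ) (e₀ : ℕ) (h0 : e₀ ≤ d) (hne : a e₀ ≠ 0)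
    (hmin : ∀ e < e₀, a e = 0) (k : ℕ) :
    ∃ U : Polynomial E, IsUnit (U.coeff 0) ∧
      (∑ e ∈ Finset.range (d + 1), Polynomial.C (algebraMap ℂ E (a e)) * Polynomial.X ^ e) ^ k
        = Polynomial.X ^ (k * e₀) * U := by
  have h1 : Polynomial.X ^ e₀ ∣ ∑ e ∈ Finset.range (d + 1),
      Polynomial.C (algebraMap ℂ E (a e)) * Polynomial.X ^ e := by
    rw [Polynomial.X_pow_dvd_iff]
    intro n hn
    rw [coeff_P d a n (by omega), hmin n hn, map_zero]
  obtain ⟨U₁, hU₁⟩ := h1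
  refine ⟨U₁ ^ k, ?_, ?_⟩
  · have h2 := coeff_P (E := E) d a e₀ h0
    rw [hU₁] at h2
    have h3 : (Polynomial.X ^ e₀ * U₁).coeff e₀ = U₁.coeff 0 := by
      have := Polynomial.coeff_X_pow_mul U₁ e₀ 0
      rwa [zero_add] at this
    rw [h3] at h2
    have h4 : (U₁ ^ k).coeff 0 = (U₁.coeff 0) ^ k := by
      rw [Polynomial.coeff_zero_eq_eval_zero, Polynomial.coeff_zero_eq_eval_zero,
        Polynomial.eval_pow]
    rw [h4, h2]
    exact ((IsUnit.mk0 _ hne).map (algebraMap ℂ E)).pow k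
  · rw [hU₁, mul_pow, ← pow_mul, mul_comm e₀ k]

end poly

section root

open scoped Classical

variable {σ : Type} [Fintype σ] {f : MvPolynomial σ ℂ} {z : σ} {κ : σ → ℕ} (B : BZ f.support z κ)

/-- the coefficients of a relation vanish -/
theorem rootv (hC : ChvStmt) (hA : Alg2Stmt) (hz : κ z ≠ 0)
    (hκ : ∃ j, j ≠ z ∧ κ j ≠ 0) (d : ℕ) (a : ℕ → ℂ)
    (hd : (f.support.card + 1) * d * κ z < B.N)
    (ha : RelQ f z (∑ α ∈ f.support, B.m α) d a) :
    ∀ e ≤ d, a e = 0 := by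
  by_contra hcon
  push Not at hcon
  set s₀ : ℂ := ∑ α ∈ f.support, B.m α with hs₀
  have hex : ∃ e, e ≤ d ∧ a e ≠ 0 := hcon
  set e₀ := Nat.find hex with he₀
  obtain ⟨he₀d, he₀ne⟩ := Nat.find_spec hex
  have hmin : ∀ e < e₀, a e = 0 := by
    intro e he
    have h1 := Nat.find_min hex he
    by_contra h2
    exact h1 ⟨(le_of_lt he).trans he₀d, h2⟩
  set ν : B.E := ∑ α ∈ f.support, B.mu α with hν
  have hνI : ν ∈ B.Ie := Ideal.sum_mem _ fun α _ => B.mu_mem α
  have hs : ∑ α ∈ f.support, B.th α = algebraMap ℂ B.E s₀ + ν := by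
    unfold BZ.th
    rw [Finset.sum_add_distrib, map_sum]
  have hIpow : B.Ie ^ (Fintype.card B.Pq + Fintype.card B.Aq + 1) = ⊥ :=
    Iv_pow B.lW B.aW B.bW B.gW
  set k := Fintype.card B.Pq + Fintype.card B.Aq + 1 with hk
  have hνk : ν ^ k = 0 := by
    have h1 := Ideal.pow_mem_pow hνI k
    rw [hIpow] at h1
    exact h1
  have hνnil : IsNilpotent ν := ⟨k, hνk⟩
  obtain ⟨T, hT1, hT2, hT3⟩ := hC σ B.E f z B.th B.ph (fun α hα t => B.ph_succ α hα t)
    B.finite_idx (fun l => by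
      rw [hs]
      have h2 : algebraMap ℂ B.E s₀ + ν - (l : B.E) = algebraMap ℂ B.E (s₀ - l) + ν := by
        rw [map_sub, map_natCast]; ring
      rw [h2]
      exact isUnit_alg_add (sub_ne_zero.2 (B.s0_ne hκ l)) hνnil)
    B.nv (fun j => rfl) B.N0 B.N0_act (fun j hj => B.N0_d j hj) B.psi_neg_mem s₀ d a ha
  set Z := actF σ B.E (X z) with hZ
  set P : Polynomial B.E := ∑ e ∈ Finset.range (d + 1),
      Polynomial.C (algebraMap ℂ B.E (a e)) * Polynomial.X ^ e with hP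
  have hZc : ∀ F, T (Z F) = Z (T F) := hT2
  have hT0 : ∀ F ∈ B.N0, T F ∈ B.N0 :=
    hT1 B.N0 B.N0_act (fun j hj => B.N0_d j hj)
  have hpN : ∀ F ∈ B.N0, (Polynomial.aeval Z P) F ∈ B.N0 :=
    aeval_mem B.N0 Z (fun F hF => B.N0_act z F hF) P
  have hpc : ∀ F, T ((Polynomial.aeval Z P) F) = (Polynomial.aeval Z P) (T F) := by
    intro F
    rw [Polynomial.aeval_eq_sum_range, LinearMap.sum_apply, LinearMap.sum_apply, map_sum]
    refine Finset.sum_congr rfl fun n _ => ?_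
    rw [LinearMap.smul_apply, LinearMap.smul_apply, map_smul]
    congr 1
    exact (pow_comm T Z (fun F => (hZc F).symm) n F).symm
  have h2 : (Polynomial.aeval Z P) (psiF f B.ph 0) - ν • T (psiF f B.ph 0) ∈ B.N0 := by
    have h3 : (Polynomial.aeval Z P) (psiF f B.ph 0)
        = ∑ e ∈ Finset.range (d + 1),
          (algebraMap ℂ B.E (a e)) • actF σ B.E (X z ^ e) (psiF f B.ph 0) := by
      rw [hP, map_sum, LinearMap.sum_apply]
      refine Finset.sum_congr rfl fun e _ => ?_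
      rw [map_mul, map_pow, Polynomial.aeval_X, Polynomial.aeval_C, map_pow]
      rfl
    have h4 : ∑ α ∈ f.support, B.th α - algebraMap ℂ B.E s₀ = ν := by
      rw [hs, add_sub_cancel_left]
    rw [h4] at hT3
    rw [h3]
    exact hT3
  have h3 := pow_rel B.N0 (Polynomial.aeval Z P) T ν (psiF f B.ph 0) hpN hT0 hpc h2 k
  rw [hνk, zero_smul, sub_zero, ← map_pow] at h3
  obtain ⟨U, hU, hPU⟩ := exists_U (E := B.E) d a e₀ he₀d he₀ne hmin k
  have h4 : (Polynomial.aeval Z (Polynomial.X ^ (k * e₀) * U)) (psiF f B.ph 0) ∈ B.N0 := by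
    rw [← hPU]
    exact h3
  have h5 := h4 (fun i => if i = z then -((k * e₀ : ℕ) : ℤ) else 0) (by
    have h6 : k * e₀ * κ z ≤ (f.support.card + 1) * d * κ z := by
      apply Nat.mul_le_mul_right
      exact Nat.mul_le_mul B.card_le he₀d
    have h7 : k * e₀ * κ z < B.N := lt_of_le_of_lt h6 hd
    rw [if_pos rfl]
    have h8 : ((k * e₀ * κ z : ℕ) : ℤ) < (B.N : ℤ) := by exact_mod_cast h7
    push_cast at h8 ⊢
    linarith [mul_comm ((k : ℤ) * e₀) (κ z : ℤ)])
  have h6 : B.Aw (fun i => if i = z then -((k * e₀ : ℕ) : ℤ) else 0) = ∅ := by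
    unfold BZ.Aw
    rw [Finset.filter_eq_empty_iff]
    intro j _
    have hj := (B.mem_Jf.1 j.2).2
    simp only
    rw [if_neg hj]
    exact lt_irrefl _
  rw [h6, Finset.prod_empty, one_mul, map_mul, map_pow, Polynomial.aeval_X] at h5
  change (Z ^ (k * e₀)) ((Polynomial.aeval Z U) (psiF f B.ph 0)) _ = 0 at h5
  rw [pow_shift, aeval_shift] at h5
  have h7 : ∀ n : ℕ, (fun i => (fun i => (fun i => if i = z then -((k * e₀ : ℕ) : ℤ) else 0) i
      + ((k * e₀ : ℕ) : ℤ) * ((Finsupp.single z 1 : σ →₀ ℕ) i : ℤ)) i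
      + (n : ℤ) * ((Finsupp.single z 1 : σ →₀ ℕ) i : ℤ)) = fun i => if i = z then (n : ℤ) else 0 := by
    intro n
    funext i
    by_cases hi : i = z
    · subst hi
      simp
    · simp [hi]
  simp only [h7] at h5
  rw [Finset.sum_eq_single 0] at h5
  · have h8 : (fun i : σ => if i = z then ((0 : ℕ) : ℤ) else 0) = 0 := by
      funext i
      simp
    rw [h8] at h5
    exact B.psi_zero hA ((hU.mul_right_eq_zero).1 h5)
  · intro n _ hn
    rw [B.psi_pos hz n hn, mul_zero]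
  · intro h
    exact absurd (Finset.mem_range.2 (Nat.succ_pos _)) h

end root

theorem cov (hA : Alg2Stmt) (hD : BDataStmtA) (hC : ChvStmt) : CovStmt := by
  intro σ _ _ F z κ D hz hκ hS hS' d a hd ha e he
  obtain ⟨B, hB⟩ := exists_BZ hD D hS hS'
  have hN : B.N = D.N := by
    show B.D.N = D.N
    rw [hB]
  have h3 : ((B.N : ℕ) : ℂ) ≠ 0 := B.N_ne
  have hs : ∑ α ∈ F.support, B.m α = -((∑ i ∈ Finset.univ.erase z, (κ i : ℂ)) / (D.N : ℕ)) := by
    rw [← hN, ← neg_div, eq_div_iff h3, mul_comm]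
    have h4 := B.sum_m_eq
    push_cast at h4
    rw [h4]
    congr 1
    refine Finset.sum_congr ?_ fun _ _ => rfl
    ext i
    simp
  rw [← hs] at ha
  exact rootv B hC hA hz hκ d a (by rw [hN]; exact hd) ha e he

end Pool.Agent.GEN.H19
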