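import Pool.Agent.GEN.StmtsZ

set_option autoImplicit false

namespace Pool.Agent.GEN.H19

open scoped Classical in
theorem cpf_step (A W : Type) [CommRing A] (s : Finset W) (T : A) (N : W → ℕ) (c : W → A)
    (b : Ideal A) (m : ℕ)
    (h : ∀ w ∈ s, (∏ w' ∈ s.erase w, (T ^ N w' - c w')) ^ m ∈ b) :
    ∀ (k : ℕ) (V : Finset W), V.card = k → V ⊆ s → V.Nonempty →
      ∃ e : ℕ, (∏ w ∈ s, ∏ w' ∈ s.erase w, (c w' ^ N w - c w ^ N w')) ^ e *
        (∏ w ∈ s \ V, (T ^ N w - c w)) ^ m ∈ b := by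
  intro k
  induction k using Nat.strong_induction_on with
  | _ k ih =>
    intro V hk hV hne
    by_cases h1 : V.card = 1
    · obtain ⟨w, rfl⟩ := Finset.card_eq_one.mp h1
      refine ⟨0, ?_⟩
      rw [pow_zero, one_mul, Finset.sdiff_singleton_eq_erase]
      exact h w (hV (Finset.mem_singleton_self w))
    · have h2 : 1 < V.card := by
        have := Finset.card_pos.mpr hne
        omega
      obtain ⟨w1, hw1, w2, hw2, h12⟩ := Finset.one_lt_card.mp h2
      set D := ∏ w ∈ s, ∏ w' ∈ s.erase w, (c w' ^ N w - c w ^ N w') with hD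
      set P := ∏ w ∈ s \ V, (T ^ N w - c w) with hP
      have step : ∀ w ∈ V, ∀ w' ∈ V, w' ≠ w →
          ∃ e : ℕ, D ^ e * ((T ^ N w - c w) * P) ^ m ∈ b := by
        intro w hw w' hw' hne'
        obtain ⟨e, he⟩ := ih (V.erase w).card
          (by rw [← hk]; exact Finset.card_erase_lt_of_mem hw) (V.erase w) rfl
          ((Finset.erase_subset _ _).trans hV) ⟨w', Finset.mem_erase.mpr ⟨hne', hw'⟩⟩
        refine ⟨e, ?_⟩
        have hs : s \ V.erase w = insert w (s \ V) := by
          ext x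
          simp only [Finset.mem_sdiff, Finset.mem_erase, Finset.mem_insert]
          constructor
          · rintro ⟨hx, hx'⟩
            by_cases hxw : x = w
            · exact Or.inl hxw
            · exact Or.inr ⟨hx, fun hxv => hx' ⟨hxw, hxv⟩⟩
          · rintro (rfl | ⟨hx, hx'⟩)
            · exact ⟨hV hw, fun hh => hh.1 rfl⟩
            · exact ⟨hx, fun hh => hx' hh.2⟩
        rw [hs, Finset.prod_insert (by simp [hw])] at he
        exact he
      obtain ⟨e1, he1⟩ := step w1 hw1 w2 hw2 (Ne.symm h12)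
      obtain ⟨e2, he2⟩ := step w2 hw2 w1 hw1 h12
      set q1 := T ^ N w1 - c w1 with hq1
      set q2 := T ^ N w2 - c w2 with hq2
      have hd1 : q1 ∣ (T ^ N w1) ^ N w2 - c w1 ^ N w2 := sub_dvd_pow_sub_pow _ _ _
      have hd2 : q2 ∣ (T ^ N w2) ^ N w1 - c w2 ^ N w1 := sub_dvd_pow_sub_pow _ _ _
      obtain ⟨x1, hx1⟩ := hd1
      obtain ⟨x2, hx2⟩ := hd2
      have hd : c w2 ^ N w1 - c w1 ^ N w2 = q1 * x1 + q2 * (-x2) := by
        have hT : (T ^ N w1) ^ N w2 = (T ^ N w2) ^ N w1 := by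
          rw [← pow_mul, ← pow_mul, mul_comm]
        rw [hT] at hx1
        linear_combination hx1 - hx2
      have hpow : (c w2 ^ N w1 - c w1 ^ N w2) ^ (2 * m) ∈ Ideal.span {q1 ^ m, q2 ^ m} := by
        rw [hd]
        have hmm : m + m ≤ 2 * m + 1 := by omega
        refine Ideal.add_pow_mem_of_pow_mem_of_le _ ?_ ?_ hmm
        · rw [mul_pow]
          exact Ideal.mul_mem_right _ _ (Ideal.subset_span (by simp))
        · rw [mul_pow]
          exact Ideal.mul_mem_right _ _ (Ideal.subset_span (by simp))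
      obtain ⟨y1, y2, hy⟩ := Ideal.mem_span_pair.mp hpow
      have hdD : (c w2 ^ N w1 - c w1 ^ N w2) ∣ D := by
        rw [hD]
        refine dvd_trans ?_ (Finset.dvd_prod_of_mem _ (hV hw1))
        exact Finset.dvd_prod_of_mem (fun w' => c w' ^ N w1 - c w1 ^ N w')
          (Finset.mem_erase.mpr ⟨Ne.symm h12, hV hw2⟩)
      obtain ⟨z, hz⟩ := hdD
      refine ⟨e1 + e2 + 2 * m, ?_⟩
      have key : D ^ (e1 + e2 + 2 * m) * P ^ m =
          (D ^ e2 * z ^ (2 * m) * y1) * (D ^ e1 * (q1 * P) ^ m) +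
          (D ^ e1 * z ^ (2 * m) * y2) * (D ^ e2 * (q2 * P) ^ m) := by
        have hD2 : D ^ (2 * m) = (y1 * q1 ^ m + y2 * q2 ^ m) * z ^ (2 * m) := by
          rw [hy, ← mul_pow, ← hz]
        rw [pow_add, pow_add, hD2, mul_pow, mul_pow]
        ring
      rw [key]
      exact b.add_mem (b.mul_mem_left _ he1) (b.mul_mem_left _ he2)

open scoped Classical in
theorem cpf : CpfStmt := by
  intro A W _ s T N c b m hs h
  obtain ⟨e, he⟩ := cpf_step A W s T N c b m (fun w hw => by exact h w hw) s.card s rfl (Finset.Subset.refl s) hs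
  refine ⟨e, ?_⟩
  have h0 : s \ s = ∅ := Finset.sdiff_self s
  rw [h0, Finset.prod_empty, one_pow, mul_one] at he
  exact he

end Pool.Agent.GEN.H19
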